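import Pool.Agent.MP_108ce6_nt.Cnt

open Finset Polynomial

namespace Pool.Agent.Results.MP_108ce6_nt.Count

/-- At most `10^6 d log d` monic irreducible integer polynomials of degree at most `d` have all
their roots in a given real interval of length `4 + 1 / (10^6 d^2 log d)`. -/
theorem result (a : ℝ) (d : ℕ) (hd : 2 ≤ d) (S : Finset ℤ[X])
    (hS : ∀ P ∈ S, P.Monic ∧ Irreducible P ∧ P.natDegree ≤ d ∧
      (P.aroots ℝ).card = P.natDegree ∧
      ∀ y ∈ P.aroots ℝ, a ≤ y ∧ y ≤ a + 4 + 1 / (10 ^ 6 * (d : ℝ) ^ 2 * Real.log d)) :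
    (S.card : ℝ) ≤ 10 ^ 6 * d * Real.log d := by
  by_contra hc
  rw [not_le] at hc
  have hd' : (2 : ℝ) ≤ d := by exact_mod_cast hd
  have hL : 1 / 2 ≤ Real.log d := by
    have := Real.log_le_log (by norm_num) hd'
    linarith [Real.log_two_gt_d9]
  have hL2 : Real.log d ≤ d := (Real.log_le_sub_one_of_pos (by linarith)).trans (by linarith)
  set x : ℝ := 10 ^ 6 * d * Real.log d with hx
  have x1 : 1 ≤ x := by
    have := mul_le_mul hd' hL (by norm_num) (by linarith)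
    linarith
  obtain ⟨T, hT, hr⟩ := exists_subset_card_eq (s := S) (n := ⌊x⌋₊ + 1)
    ((Nat.floor_lt (by linarith)).2 hc)
  have r1 : x < #T := by
    rw [hr]
    push_cast
    exact Nat.lt_floor_add_one x
  have r2 : (#T : ℝ) ≤ 2 * x := by
    rw [hr]
    push_cast
    linarith [Nat.floor_le (a := x) (by linarith)]
  set ζ : ℝ := 1 / (10 ^ 6 * (d : ℝ) ^ 2 * Real.log d) with hζ
  have ζ0 : 0 < ζ := by positivity
  have ζ1 : x * d * ζ = 1 := by
    rw [hx, hζ]
    field_simp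
  have h1 : ((#T * d : ℕ) : ℝ) ≤ 2 * x * d := by
    push_cast
    gcongr
  have h2 : (1 + ζ / 4) ^ (#T * d) ≤ 2 := by
    have e1 : (1 + ζ / 4) ^ (#T * d) ≤ Real.exp (ζ / 4) ^ (#T * d) :=
      pow_le_pow_left₀ (by linarith) (by linarith [Real.add_one_le_exp (ζ / 4)]) _
    rw [← Real.exp_nat_mul] at e1
    refine e1.trans ((Real.le_log_iff_exp_le (by norm_num)).1 ?_)
    have := mul_le_mul_of_nonneg_right h1 ζ0.le
    linarith [Real.log_two_gt_d9]
  have h3 := Pool.Agent.MP_108ce6_nt.Cnt.main_ineq T (c := a + 2 + ζ / 2) (R := 1 + ζ / 4)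
    (by linarith) (d := d) (by omega) (by omega) h2 fun P hP => by
      obtain ⟨e1, e2, e3, e4, e5⟩ := hS P (hT hP)
      exact ⟨e1, e2, e3, e4, fun y hy => ⟨by linarith [(e5 y hy).1], by linarith [(e5 y hy).2]⟩⟩
  have h4 : Real.log (2 * ((#T * d : ℕ) : ℝ)) ≤ 25 * Real.log d := by
    have e0 : (0 : ℝ) < ((#T * d : ℕ) : ℝ) := by
      push_cast
      exact mul_pos (by linarith) (by linarith)
    have e1 : (2 : ℝ) ^ 22 ≤ (d : ℝ) ^ 22 := pow_le_pow_left₀ (by norm_num) hd' 22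
    have e2 : 2 * ((#T * d : ℕ) : ℝ) ≤ (d : ℝ) ^ 22 * (d : ℝ) ^ 3 := by
      have e3 := mul_le_mul_of_nonneg_left hL2 (by positivity : (0 : ℝ) ≤ (d : ℝ) ^ 2)
      have e4 := mul_le_mul_of_nonneg_right e1 (by positivity : (0 : ℝ) ≤ (d : ℝ) ^ 3)
      have e5 : (0 : ℝ) ≤ (d : ℝ) ^ 3 := by positivity
      linarith
    have e3 := Real.log_le_log (by linarith) e2
    rw [← pow_add, Real.log_pow] at e3
    exact_mod_cast e3
  have h5 := mul_le_mul_of_nonneg_left
    (by linarith : 1 + Real.log (2 * ((#T * d : ℕ) : ℝ)) ≤ 27 * Real.log d)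
    (by positivity : (0 : ℝ) ≤ 12000 * d)
  linarith

end Pool.Agent.Results.MP_108ce6_nt.Count
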