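import Mathlib
import Pool.Agent.MP_108ce6_nt.Mg.Core

namespace Pool.Agent.Results.MP_108ce6_nt.HouseGap

open Real Polynomial Pool.Agent.MP_108ce6_nt

/-- A totally real algebraic integer of degree `d` which is not of the form `2 cos (2 π q)` has a
conjugate of absolute value larger than `2 + 1 / (601 (d + 1))`. -/
theorem result (x : ℝ) (hint : IsIntegral ℤ x)
    (hreal : ((minpoly ℚ x).aroots ℝ).card = (minpoly ℚ x).natDegree)
    (hcos : ¬ ∃ q : ℚ, x = 2 * Real.cos (2 * π * (q : ℝ))) :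
    ∃ y ∈ (minpoly ℚ x).aroots ℝ, 2 + 1 / (601 * (((minpoly ℚ x).natDegree : ℝ) + 1)) < |y| := by
  have hq : IsIntegral ℚ x := hint.tower_top
  have e : (minpoly ℤ x).map (Int.castRingHom ℝ) = (minpoly ℚ x).map (algebraMap ℚ ℝ) := by
    rw [minpoly.isIntegrallyClosed_eq_field_fractions' ℚ hint, Polynomial.map_map]
    congr 1
  have h : (minpoly ℤ x).map (Int.castRingHom ℝ) =
      (((minpoly ℚ x).aroots ℝ).map fun θ => X - C θ).prod := by
    rw [e]
    exact (prod_multiset_X_sub_C_of_monic_of_roots_card_eq ((minpoly.monic hq).map _)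
      (by rw [natDegree_map]; exact hreal)).symm
  have hx : x ∈ (minpoly ℚ x).aroots ℝ := mem_aroots.2 ⟨minpoly.ne_zero hq, minpoly.aeval ℚ x⟩
  rw [← hreal]
  obtain ⟨y, hy, hmax⟩ := ((minpoly ℚ x).aroots ℝ).toFinset.exists_max_image (fun y => |y|)
    ⟨x, Multiset.mem_toFinset.2 hx⟩
  simp only [Multiset.mem_toFinset] at hy hmax
  refine ⟨y, hy, core' _ _ h y hy ?_ hmax⟩
  by_contra hc
  exact hcos (kronecker _ _ h x hx fun θ hθ => (hmax θ hθ).trans (not_lt.1 hc))

end Pool.Agent.Results.MP_108ce6_nt.HouseGap
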