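import Mathlib
import Pool.Agent.MP_108ce6_nt.Mg.Rig_Struct
import Pool.Agent.MP_108ce6_nt.Mg.Rig_Ultra

namespace Pool.Agent.Results.MP_108ce6_nt.MomentRigidity

open Real Polynomial MeasureTheory Filter Topology Pool.Agent.MP_108ce6_nt
  Pool.Agent.MP_108ce6_nt.Rig

theorem integrable_eval {μ : Measure ℝ} [IsFiniteMeasure μ] {a b : ℝ} (h : μ (Set.Icc a b)ᶜ = 0)
    (p : ℝ[X]) : Integrable (fun x => p.eval x) μ := by
  obtain ⟨B, hB⟩ := isCompact_Icc.exists_bound_of_continuousOn (s := Set.Icc a b)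
    p.continuous.continuousOn
  exact Integrable.of_bound p.continuous.aestronglyMeasurable B
    (Eventually.mono (show ∀ᵐ x ∂μ, x ∈ Set.Icc a b from h) fun x hx => hB x hx)

theorem mom_eq {μ : Measure ℝ} [IsFiniteMeasure μ] {a b : ℝ} (h : μ (Set.Icc a b)ᶜ = 0)
    (p : ℝ[X]) : mom (fun j => ∫ x, x ^ j ∂μ) p = ∫ x, p.eval x ∂μ := by
  induction p using Polynomial.induction_on' with
  | add p q hp hq =>
    simp only [map_add, hp, hq, eval_add]
    exact (integral_add (integrable_eval h p) (integrable_eval h q)).symm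
  | monomial n c => simp [integral_const_mul]

theorem pos_mom {μ : Measure ℝ} [IsFiniteMeasure μ] {a b : ℝ} (h : μ (Set.Icc a b)ᶜ = 0) :
    Pos (mom fun j => ∫ x, x ^ j ∂μ) (Set.Icc a b) := fun p hp => by
  rw [mom_eq h]
  exact integral_nonneg_of_ae 
    (Eventually.mono (show ∀ᵐ x ∂μ, x ∈ Set.Icc a b from h) fun x hx => hp x hx)

theorem null_of_sq {μ : Measure ℝ} [IsFiniteMeasure μ] {a b : ℝ} (h : μ (Set.Icc a b)ᶜ = 0)
    {p : ℝ[X]} (hp : mom (fun j => ∫ x, x ^ j ∂μ) (p ^ 2) = 0) : ∀ᵐ x ∂μ, p.eval x = 0 := by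
  rw [mom_eq h, integral_eq_zero_iff_of_nonneg (fun x => by simp [sq_nonneg])
    (integrable_eval h _)] at hp
  exact hp.mono fun x hx => by simpa using hx

theorem atoms {μ : Measure ℝ} [IsFiniteMeasure μ] (h : μ (Set.Icc (-2) 2)ᶜ = 0)
    (hint : ∀ j : ℕ, ∃ z : ℤ, ∫ x, x ^ j ∂μ = z) (x : ℝ) (hx : μ {x} ≠ 0) :
    ∃ q : ℚ, x = 2 * Real.cos (2 * π * (q : ℝ)) := by
  have e : Set.Icc (0 - 2 : ℝ) (0 + 2) = Set.Icc (-2) 2 := by norm_num
  refine atom_cos (w := μ.real {x}) (e ▸ pos_mom h) (by simpa using hint) ?_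
    (ENNReal.toReal_pos hx (measure_ne_top _ _)) fun p => ?_
  · by_contra hc
    exact hx (measure_mono_null (Set.singleton_subset_iff.2 (e ▸ hc)) h)
  · rw [mom_eq h]
    have := setIntegral_le_integral (s := {x}) (integrable_eval h (p ^ 2))
      (Eventually.of_forall fun y => by simp [sq_nonneg])
    simpa [Measure.real] using this

/-- Rigidity of measures of bounded mass with integer moments on intervals of length four. -/
theorem result (m : ℝ) : ∃ S : Finset ℝ, ∀ (μ : Measure ℝ) [IsFiniteMeasure μ] (a : ℝ),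
    -2 ≤ a → a + 4 ≤ 5 / 2 → μ (Set.Icc a (a + 4))ᶜ = 0 → μ.real Set.univ ≤ m →
    (∀ j : ℕ, ∃ z : ℤ, ∫ x, x ^ j ∂μ = z) →
    μ (↑S : Set ℝ)ᶜ = 0 ∨ (μ (Set.Icc (-2) 2)ᶜ = 0 ∧
      ∀ x : ℝ, μ {x} ≠ 0 → ∃ q : ℚ, x = 2 * Real.cos (2 * π * (q : ℝ))) := by
  classical
  by_contra hc
  simp only [not_exists, not_forall, not_or] at hc
  choose μ hfin a ha1 ha2 hμ hm hint hS hbad using hc
  have hbad' : ∀ S, μ S (Set.Icc (-2) 2)ᶜ ≠ 0 := fun S h => hbad S ⟨h, atoms h (hint S)⟩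
  set U : Ultrafilter (Finset ℝ) := Ultrafilter.of atTop
  have hU : (U : Filter (Finset ℝ)) ≤ atTop := Ultrafilter.of_le _
  set L := fun S => mom fun j => ∫ x, x ^ j ∂μ S with hL
  have hpos : ∀ S, Pos (L S) (Set.Icc (a S + 2 - 2) (a S + 2 + 2)) := fun S => by
    convert pos_mom (hμ S) using 2 <;> ring
  have hone : ∀ S, L S 1 ≤ m := fun S => by
    rw [hL]; simpa [mom_eq (hμ S)] using hm S
  have hLX : ∀ S (j : ℕ), ∃ z : ℤ, L S (X ^ j) = z := fun S j => by simpa [hL] using hint S j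
  have hδ : ∀ S, 0 < a S + 2 := fun S => by
    refine lt_of_le_of_ne (by linarith [ha1 S]) fun h => hbad' S ?_
    have := hμ S
    rwa [show a S = -2 by linarith, show (-2 : ℝ) + 4 = 2 by norm_num] at this
  obtain ⟨c, hc, hlim⟩ := (isCompact_Icc (a := (0 : ℝ)) (b := 1 / 2)).ultrafilter_le_nhds
    (U.map fun S => a S + 2)
    (le_principal_iff.2 (Filter.mem_map.2 (univ_mem' fun S => ⟨(hδ S).le, by linarith [ha2 S]⟩)))
  replace hlim : Tendsto (fun S => a S + 2) U (𝓝 c) := hlim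
  have hs : ∀ j : ℕ, ∃ z : ℤ, ∀ᶠ S in U, L S (X ^ j) = z := fun j =>
    ulim U (B := 3 ^ j * m) (Eventually.of_forall fun S =>
      ((hpos S).abs_le' (M := 3 ^ j) fun x hx => by
        rw [eval_pow, eval_X, abs_pow]
        exact pow_le_pow_left₀ (abs_nonneg _) (abs_le.2
          ⟨by linarith [hx.1, ha1 S], by linarith [hx.2, ha2 S]⟩) j).trans
        (mul_le_mul_of_nonneg_left (hone S) (by positivity))) fun S => hLX S j
  choose s hs using hs
  have hev : ∀ p : ℝ[X], ∀ᶠ S in U, L S p = mom (fun j => (s j : ℝ)) p := fun p => by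
    induction p using Polynomial.induction_on' with
    | add p q hp hq => filter_upwards [hp, hq] with S h1 h2; rw [map_add, map_add, h1, h2]
    | monomial n b =>
      filter_upwards [hs n] with S h
      rw [← C_mul_X_pow_eq_monomial, ← smul_eq_C_mul, map_smul, map_smul, h, mom_X_pow]
  have hpos' : Pos (mom fun j => (s j : ℝ)) (Set.Icc (c - 2) (c + 2)) := fun p hp => by
    refine le_of_forall_pos_le_add fun ε hε => ?_
    have hm0 : 0 ≤ m := (hpos ∅).one.trans (hone ∅)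
    have hε' : 0 < ε / (m + 1) := by positivity
    have h1 : ∀ᶠ d in 𝓝 c, ∀ t ∈ Set.Icc (-2 : ℝ) 2, -(ε / (m + 1)) < p.eval (d + t) :=
      isCompact_Icc.eventually_forall_of_forall_eventually fun t ht => by
        have h2 : Continuous fun z : ℝ × ℝ => p.eval (z.1 + z.2) := by fun_prop
        refine h2.continuousAt.eventually (lt_mem_nhds ?_)
        have := hp (c + t) ⟨by linarith [ht.1], by linarith [ht.2]⟩
        simp only; linarith
    obtain ⟨S, h2, h3⟩ := ((hlim.eventually h1).and (hev p)).exists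
    have h4 := (hpos S).ge (p := p) (M := ε / (m + 1)) fun x hx => by
      have := h2 (x - (a S + 2)) ⟨by linarith [hx.1], by linarith [hx.2]⟩
      rw [add_sub_cancel] at this
      exact this.le
    have h5 := mul_le_mul_of_nonneg_left (show L S 1 ≤ m + 1 by linarith [hone S]) hε'.le
    rw [div_mul_cancel₀ _ (by positivity)] at h5
    linarith
  have hpd : ∀ p : ℝ[X], p ≠ 0 → 0 < mom (fun j => (s j : ℝ)) (p ^ 2) := fun p hp => by
    refine lt_of_le_of_ne (hpos'.sq p) fun h => ?_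
    obtain ⟨S, h1, h2⟩ := ((hev (p ^ 2)).and (hU (eventually_ge_atTop p.roots.toFinset))).exists
    refine hS S (mem_ae_iff.1 ((null_of_sq (hμ S) (h1.trans h.symm)).mono fun x hx => ?_))
    exact h2 (Multiset.mem_toFinset.2 ((mem_roots hp).2 hx))
  obtain ⟨z, rfl⟩ := centre_int s c hpos' hpd
  have hz : z = 0 := by
    have h1 : (0 : ℤ) ≤ z := by exact_mod_cast hc.1
    have h2 : z < 1 := by exact_mod_cast (show (z : ℝ) < 1 by linarith [hc.2])
    omega
  rw [hz, Int.cast_zero] at hlim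
  obtain ⟨S, W, hW, hW0⟩ := (near_zero U m _ L hδ hlim hpos hone hLX).exists
  refine hbad' S (mem_ae_iff.1 ?_)
  filter_upwards [null_of_sq (hμ S) hW0, mem_ae_iff.2 (hμ S)] with x h1 h2
  exact ⟨by linarith [h2.1, ha1 S], not_lt.1 fun h => hW x h h1⟩

end Pool.Agent.Results.MP_108ce6_nt.MomentRigidity
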