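import Pool.Agent.MP_108ce6_nt.H25.D

/-! Every interval of length `4 + ε` with `ε ≥ C (log d / d²)^(1/3)` holds all roots of at least
`exp (ε d² / 120)` monic irreducible integer polynomials of degree `d`. -/

namespace Pool.Agent.Results.MP_108ce6_nt.NearSpan

open Polynomial Pool.Agent.MP_108ce6_nt.H25

theorem result (a ε : ℝ) (d : ℕ) (hd : 2 ≤ d) (hε : ε ≤ 1)
    (h : 10 ^ 10 * Real.log d ≤ ε ^ 3 * d ^ 2) :
    ∃ S : Finset ℤ[X], Real.exp (ε * d ^ 2 / 120) ≤ S.card ∧ ∀ P ∈ S, P.Monic ∧ Irreducible P ∧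
      P.natDegree = d ∧ (P.aroots ℝ).card = d ∧ (∀ y ∈ P.aroots ℝ, a ≤ y ∧ y ≤ a + 4 + ε) ∧
      ∃ y ∈ P.aroots ℝ, a + 4 < y := by
  classical
  have d2 : (2 : ℝ) ≤ d := by exact_mod_cast hd
  obtain ⟨τ, rfl⟩ : ∃ τ, ε = 9 * τ := ⟨ε / 9, by ring⟩
  obtain ⟨L, hL⟩ : ∃ L, L = Real.log d := ⟨_, rfl⟩
  obtain ⟨u, hu⟩ : ∃ u, u = d * τ := ⟨_, rfl⟩
  have L0 : 2 / 3 < L := by
    linarith [Real.log_two_gt_d9, Real.log_le_log (by norm_num) d2]
  have h1 : 10 ^ 7 * L ≤ u ^ 2 * τ := by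
    rw [← hL] at h
    have : (9 * τ) ^ 3 * d ^ 2 = 729 * (u ^ 2 * τ) := by rw [hu]; ring
    linarith
  have τ0 : 0 < τ := by
    by_contra hc
    have := mul_nonpos_of_nonneg_of_nonpos (sq_nonneg u) (not_lt.1 hc)
    linarith
  have u0 : 0 < u := by rw [hu]; positivity
  have L2 : L ^ 2 ≤ 4 * d := by
    have e1 := Real.log_le_sub_one_of_pos (Real.sqrt_pos.2 (by linarith : (0 : ℝ) < d))
    rw [Real.log_sqrt (by linarith), ← hL] at e1
    have e2 := pow_le_pow_left₀ (by linarith) (by linarith : L ≤ 2 * √d) 2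
    rw [mul_pow, Real.sq_sqrt (by linarith)] at e2
    linarith
  have uL : 120 * L ≤ u := by
    refine le_of_pow_le_pow_left₀ (n := 3) (by norm_num) u0.le ?_
    have e1 : u ^ 3 = d * (u ^ 2 * τ) := by rw [hu]; ring
    have e2 := mul_le_mul_of_nonneg_left h1 (by linarith : (0 : ℝ) ≤ d)
    have e3 := mul_le_mul_of_nonneg_right L2 (by linarith : 0 ≤ L)
    have e4 : 0 ≤ d * L := by positivity
    nlinarith
  have d9 : 9 * u ≤ d := by rw [hu]; nlinarith
  have K1 : (d : ℝ) / 3 ≤ (d / 2 : ℕ) := by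
    rw [div_le_iff₀ (by norm_num)]
    exact_mod_cast (by omega : d ≤ d / 2 * 3)
  have K2 : ((d / 2 : ℕ) : ℝ) ≤ d / 2 := Nat.cast_div_le
  have K3 : (d : ℝ) / 2 ≤ (d - d / 2 : ℕ) := by
    rw [Nat.cast_sub (by omega)]; linarith
  have hr : Real.exp (3 / 10 * u) ≤ (1 + τ) ^ (d / 2) := by
    have e1 := Real.one_sub_inv_le_log_of_pos (by linarith : 0 < 1 + τ)
    have e2 : (1 + τ)⁻¹ ≤ 1 - 9 / 10 * τ := by
      rw [inv_eq_one_div, div_le_iff₀ (by linarith)]; nlinarith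
    have e3 := mul_le_mul K1 (by linarith : 9 / 10 * τ ≤ Real.log (1 + τ)) (by positivity)
      (by positivity)
    rw [← Real.exp_log (by positivity : 0 < (1 + τ) ^ (d / 2)), Real.log_pow, Real.exp_le_exp, hu]
    linarith
  have hm : Real.exp (3 / 20 * u) ≤ ⌊(1 + τ) ^ (d / 2)⌋₊ := by
    have e1 := Nat.lt_floor_add_one ((1 + τ) ^ (d / 2))
    have e2 := Real.add_one_le_exp (3 / 20 * u)
    have e3 : Real.exp (3 / 10 * u) = Real.exp (3 / 20 * u) * Real.exp (3 / 20 * u) := by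
      rw [← Real.exp_add]; congr 1; ring
    nlinarith
  have b2 : (3 / u) ^ 2 ≤ τ := by
    rw [div_pow, div_le_iff₀ (by positivity)]; linarith
  have t2 : τ ^ 2 ≤ τ / 4 := by rw [sq]; exact (mul_le_mul_of_nonneg_left
    (by linarith : τ ≤ 1 / 4) τ0.le).trans_eq (by ring)
  have b3 : 4 < (4 - (3 / u) ^ 2) * (1 + τ) ^ 2 := by
    have e1 := mul_le_mul_of_nonneg_right b2 (sq_nonneg (1 + τ))
    have e2 := mul_le_mul_of_nonneg_left t2 τ0.le
    linarith [sq_nonneg τ]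
  obtain ⟨T, hT, hR⟩ := core (a + 2 * (1 + τ) ^ 2) (lam := 60 * L / u) (B := u / 10) (n := d)
    (K := d / 2) τ0 (by omega) (by omega) (by positivity)
    (by rw [div_le_iff₀ u0]; linarith) (by positivity)
    (by
      have e1 : 2 * (8 * ((d / 2 : ℕ) : ℝ) ^ 2 + 1) ≤ d ^ 3 := by
        have := pow_le_pow_left₀ (by positivity) K2 2
        nlinarith
      have e2 := Real.log_le_log (by positivity) e1
      rw [Real.log_pow, ← hL] at e2
      have e3 : 2 * (60 * L / u) ^ 2 / τ ≤ 3 * L := by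
        rw [div_pow, ← mul_div_assoc, div_div, div_le_iff₀ (by positivity)]
        nlinarith
      have e4 : 60 * L / u * (u / 10) = 6 * L := by field_simp; norm_num
      push_cast at e2
      linarith)
    (by
      have e1 : Real.exp (u / 10 + 2) ^ 2 * d < Real.exp (3 / 10 * u) := by
        rw [← Real.exp_nat_mul, ← Real.exp_log (by linarith : (0 : ℝ) < d), ← hL, ← Real.exp_add,
          Real.exp_lt_exp]
        push_cast
        linarith
      have e2 := mul_lt_mul_of_pos_left (e1.trans_le hr) τ0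
      have e3 := mul_le_mul_of_nonneg_left (by linarith : 2 ≤ u)
        (sq_nonneg (Real.exp (u / 10 + 2)))
      rw [hu] at e3
      rw [hu] at e2 ⊢
      linarith)
    (Nat.floor_le (by positivity)) (b := 3 / u)
    ⟨by positivity, by rw [div_le_iff₀ u0]; nlinarith [Real.pi_gt_three]⟩
    (by
      have e1 : d * (3 / u) = 2 / τ + 1 / τ := by rw [hu]; field_simp; norm_num
      have e2 : 9 ≤ 1 / τ := by rw [le_div_iff₀ τ0]; linarith
      linarith [Real.pi_le_four])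
  choose! f hf using fun R (h : R ∈ T) =>
    lift (by omega) (hR R h).1 (hR R h).2.1 (hR R h).2.2.1 (hR R h).2.2.2.1
  refine ⟨T.image f, ?_, fun P hP => ?_⟩
  · rw [Finset.card_image_of_injOn fun x hx y hy e => by rw [← (hf x hx).1, e, (hf y hy).1]]
    refine le_trans ?_ (Nat.cast_le.2 hT)
    push_cast
    refine le_trans ?_ (pow_le_pow_left₀ (Real.exp_pos _).le hm _)
    rw [← Real.exp_nat_mul, Real.exp_le_exp]
    have := mul_le_mul_of_nonneg_right K3 u0.le
    rw [hu] at this ⊢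
    linarith
  · obtain ⟨R, hRT, rfl⟩ := Finset.mem_image.1 hP
    obtain ⟨e1, e2, e3, e4⟩ := hf R hRT
    obtain ⟨-, -, -, -, e5, e6, y, hy, e7⟩ := hR R hRT
    rw [aroots_def, e1]
    refine ⟨e2, e3, e4, e5, fun y hy => ?_, y, hy, by linarith⟩
    have := abs_le.1 (e6 y hy)
    constructor <;> linarith [this.1, this.2]

end Pool.Agent.Results.MP_108ce6_nt.NearSpan
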